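import Pool.Agent.Lib.helper1.Quad

set_option autoImplicit false

namespace Pool.Agent.Results.MP_d6bd81_co.No
open Pool.Agent.Lib.helper1.Cfg

/-- balanced configuration `(n_k)` -/
def Config (n k : ℕ) (I : Fin n → Fin n → Prop) : Prop :=
  (∀ l, {p | I p l}.ncard = k) ∧ (∀ p, {l | I p l}.ncard = k) ∧
    ∀ p q, p ≠ q → {l | I p l ∧ I q l}.Subsingleton

/-- geometric realization in `ℝ^m` -/
def Realizes {n m : ℕ} (I : Fin n → Fin n → Prop) (P : Fin n → Fin m → ℝ)
    (L : Fin n → AffineSubspace ℝ (Fin m → ℝ)) : Prop :=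
  Function.Injective P ∧ Function.Injective L ∧
    (∀ l, Module.finrank ℝ (L l).direction = 1) ∧ ∀ p l, P p ∈ L l ↔ I p l

/-- dimensions of the affine hulls of all realizations -/
def Dims {n : ℕ} (I : Fin n → Fin n → Prop) : Set ℕ :=
  {d | ∃ (m : ℕ) (P : Fin n → Fin m → ℝ) (L : Fin n → AffineSubspace ℝ (Fin m → ℝ)),
    Realizes I P L ∧ Module.finrank ℝ (affineSpan ℝ (Set.range P)).direction = d}

def lines : Fin 15 → List (Fin 15) :=
  ![[0, 1, 2], [0, 3, 4], [1, 3, 5], [2, 4, 5], [0, 5, 6], [1, 4, 7], [2, 3, 8], [9, 10, 11],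
    [12, 13, 14], [6, 10, 14], [8, 9, 13], [7, 11, 12], [6, 11, 13], [7, 9, 14], [8, 10, 12]]

def pen : Fin 15 → List (Fin 15) :=
  ![[0, 1, 4], [0, 2, 5], [0, 3, 6], [1, 2, 6], [1, 3, 5], [2, 3, 4], [4, 9, 12], [5, 11, 13],
    [6, 10, 14], [7, 10, 13], [7, 9, 14], [7, 11, 12], [8, 11, 14], [8, 10, 12], [8, 9, 13]]

def Inc (p l : Fin 15) : Prop := p ∈ lines l

instance (p l : Fin 15) : Decidable (Inc p l) := by unfold Inc; infer_instance

def T3 : Fin 15 → Fin 3 → ℤ :=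
  ![![10, -4, 0], ![2, 4, 0], ![4, 2, 0], ![14, 4, 0], ![16, 8, 0], ![8, 4, 0], ![9, 0, 0],
    ![-12, 0, 0], ![-6, 0, 0], ![-6, 0, -6], ![-3, 0, -6], ![0, 0, -6], ![-4, 0, -4],
    ![-6, 0, -10], ![-5, 0, -7]]

def T2 : Fin 15 → Fin 2 → ℤ :=
  ![![60, 20], ![144, 62], ![60, 6], ![-24, -64], ![102, 41], ![60, -1], ![18, -22], ![156, 54],
    ![72, -24], ![192, 96], ![96, 4], ![156, 39], ![156, 74], ![120, 24], ![120, 12]]

theorem nc {s : Set (Fin 15)} {n : ℕ} (p : Fin 15 → Prop) [DecidablePred p]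
    (h : (Finset.univ.filter p).card = n) (hs : s = {x | p x}) : s.ncard = n := by
  rw [← h, ← Set.ncard_coe_finset, hs]
  congr 1
  ext x
  simp

theorem step {m : ℕ} {I : Fin 15 → Fin 15 → Prop} {P : Fin 15 → Fin m → ℝ}
    {L : Fin 15 → AffineSubspace ℝ (Fin m → ℝ)} (h : Realizes I P L)
    {S : AffineSubspace ℝ (Fin m → ℝ)} (z l : Fin 15) {x y : Fin 15} (hx : P x ∈ S) (hy : P y ∈ S)
    (H : x ≠ y ∧ I x l ∧ I y l ∧ I z l) : P z ∈ S :=
  third_mem (h.2.2.1 l) (h.1.ne H.1) ((h.2.2.2 _ _).2 H.2.1) ((h.2.2.2 _ _).2 H.2.2.1)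
    ((h.2.2.2 _ _).2 H.2.2.2) hx hy

theorem result : ∃ (n k : ℕ) (I : Fin n → Fin n → Prop), 2 ≤ k ∧ Config n k I ∧
    IsGreatest (Dims I) 3 ∧ IsGreatest (Dims fun l p => I p l) 2 := by
  refine ⟨15, 3, Inc, by norm_num, ⟨fun l => nc _ ?_ rfl, fun l => nc _ ?_ rfl, fun p q h => ?_⟩,
    ⟨⟨3, _, _, real (Int.castRingHom ℝ) T3 (fun l => (lines l).getD 0 0)
      (fun l => (lines l).getD 1 0) Inc Int.cast_injective (by decide +kernel) (by decide +kernel)
      (by decide +kernel) (by decide +kernel),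
      hull_full _ T3 Int.cast_injective 0 ![1, 3, 9] ?_⟩, ?_⟩,
    ⟨⟨2, _, _, real (Int.castRingHom ℝ) T2 (fun l => (pen l).getD 0 0)
      (fun l => (pen l).getD 1 0) (fun l p => Inc p l) Int.cast_injective (by decide +kernel)
      (by decide +kernel) (by decide +kernel) (by decide +kernel),
      hull_full _ T2 Int.cast_injective 0 ![1, 2] ?_⟩, ?_⟩⟩
  · revert l; decide +kernel
  · revert l; decide +kernel
  · have : ∀ p q l l', p ≠ q → Inc p l → Inc q l → Inc p l' → Inc q l' → l = l' := by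
      decide +kernel
    exact fun a ha b hb => this p q a b h ha.1 ha.2 hb.1 hb.2
  · rw [Matrix.det_fin_three]; decide +kernel
  · rintro _ ⟨m, P, L, h, rfl⟩
    apply hull_le P ![P 0, P 1, P 3, P 9]
    have h0 := mem_affineSpan ℝ (Set.mem_range_self (f := ![P 0, P 1, P 3, P 9]) 0)
    have h1 := mem_affineSpan ℝ (Set.mem_range_self (f := ![P 0, P 1, P 3, P 9]) 1)
    have h3 := mem_affineSpan ℝ (Set.mem_range_self (f := ![P 0, P 1, P 3, P 9]) 2)
    have h9 := mem_affineSpan ℝ (Set.mem_range_self (f := ![P 0, P 1, P 3, P 9]) 3)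
    generalize affineSpan ℝ (Set.range ![P 0, P 1, P 3, P 9]) = S at *
    change P 0 ∈ S at h0
    change P 1 ∈ S at h1
    change P 3 ∈ S at h3
    change P 9 ∈ S at h9
    have h2 := step h 2 0 h0 h1 (by decide)
    have h4 := step h 4 1 h0 h3 (by decide)
    have h5 := step h 5 2 h1 h3 (by decide)
    have h6 := step h 6 4 h0 h5 (by decide)
    have h7 := step h 7 5 h1 h4 (by decide)
    have h8 := step h 8 6 h2 h3 (by decide)
    have h13 := step h 13 10 h8 h9 (by decide)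
    have h14 := step h 14 13 h7 h9 (by decide)
    have h10 := step h 10 9 h6 h14 (by decide)
    have h11 := step h 11 7 h9 h10 (by decide)
    have h12 := step h 12 8 h13 h14 (by decide)
    intro i
    fin_cases i <;> assumption
  · rw [Matrix.det_fin_two]; decide +kernel
  · rintro _ ⟨m, P, L, h, rfl⟩
    apply hull_le P ![P 7, P 8, P 9]
    have h7 := mem_affineSpan ℝ (Set.mem_range_self (f := ![P 7, P 8, P 9]) 0)
    have h8 := mem_affineSpan ℝ (Set.mem_range_self (f := ![P 7, P 8, P 9]) 1)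
    have h9 := mem_affineSpan ℝ (Set.mem_range_self (f := ![P 7, P 8, P 9]) 2)
    generalize affineSpan ℝ (Set.range ![P 7, P 8, P 9]) = S at *
    change P 7 ∈ S at h7
    change P 8 ∈ S at h8
    change P 9 ∈ S at h9
    have h14 := step h 14 10 h7 h9 (by decide)
    have h13 := step h 13 14 h8 h9 (by decide)
    have h10 := step h 10 9 h7 h13 (by decide)
    have h11 := step h 11 12 h8 h14 (by decide)
    have h12 := step h 12 11 h7 h11 (by decide)
    have h4 := step h 4 6 h9 h12 (by decide)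
    have h5 := step h 5 7 h11 h13 (by decide)
    have h6 := step h 6 8 h10 h14 (by decide)
    obtain ⟨i1, -, i3, i4⟩ := id h
    have h0 : P 0 ∈ S := quad (B := P 1) (C := P 2) (D := P 3) (i3 0) (i3 1) (i3 3) (i3 5) (i3 4)
      (i3 2) ((i4 _ _).2 (by decide)) ((i4 _ _).2 (by decide)) ((i4 _ _).2 (by decide))
      ((i4 _ _).2 (by decide)) ((i4 _ _).2 (by decide)) ((i4 _ _).2 (by decide))
      ((i4 _ _).2 (by decide)) ((i4 _ _).2 (by decide)) ((i4 _ _).2 (by decide))
      ((i4 _ _).2 (by decide)) ((i4 _ _).2 (by decide)) ((i4 _ _).2 (by decide))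
      ((i4 _ _).2 (by decide)) ((i4 _ _).2 (by decide)) ((i4 _ _).2 (by decide))
      ((i4 _ _).2 (by decide)) ((i4 _ _).2 (by decide)) ((i4 _ _).2 (by decide))
      (i1.ne (by decide)) (i1.ne (by decide)) (i1.ne (by decide)) (i1.ne (by decide))
      (i1.ne (by decide)) (fun x => absurd ((i4 _ _).1 x) (by decide))
      (fun x => absurd ((i4 _ _).1 x) (by decide)) h4 h5 h6
    have h1 := step h 1 0 h0 h4 (by decide)
    have h2 := step h 2 1 h0 h5 (by decide)
    have h3 := step h 3 2 h0 h6 (by decide)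
    intro i
    fin_cases i <;> assumption

end Pool.Agent.Results.MP_d6bd81_co.No
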